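import Pool.Agent.Helper55.CF.Goals

set_option autoImplicit false

/-!
Non-vanishing of the condition polynomials.
-/

open CF55

noncomputable section
namespace Pool.Agent.Helper18.CF

/-- A basis of `V` modulo the radical with a hyperbolic pairing. -/
theorem frame (B : V →ₗ[ℂ] V →ₗ[ℂ] ℂ) (hB : ∀ x y, B x y = B y x) (P s : V)
    (hli : LinearIndependent ℂ ![P, s]) (hP : ∀ v, B P v = 0) (hs : ∀ v, B s v = 0)
    (hrad : ∀ v, (∀ v', B v v' = 0) → v ∈ Submodule.span ℂ {P, s}) :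
    ∃ f₁ f₂ f₃ f₄ : V, B f₁ f₁ = 0 ∧ B f₁ f₂ = 0 ∧ B f₁ f₃ = 0 ∧ B f₁ f₄ = 1 / 2 ∧
      B f₂ f₂ = 0 ∧ B f₂ f₃ = - (1 / 2) ∧ B f₂ f₄ = 0 ∧ B f₃ f₃ = 0 ∧ B f₃ f₄ = 0 ∧
      B f₄ f₄ = 0 ∧
      ∀ v : V, ∃ c₁ c₂ c₃ c₄ α β : ℂ,
        v = c₁ • f₁ + c₂ • f₂ + c₃ • f₃ + c₄ • f₄ + α • P + β • s := by
  set Rd : Submodule ℂ V := Submodule.span ℂ {P, s} with hRd
  have hR2 : Module.finrank ℂ Rd = 2 := by
    have h1 := finrank_span_eq_card hli
    have h2 : Set.range ![P, s] = {P, s} := by simp [Set.pair_comm]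
    rw [h2] at h1
    simpa using h1
  obtain ⟨W, hW⟩ := Submodule.exists_isCompl Rd
  have hW4 : Module.finrank ℂ W = 4 := by
    have h1 := Submodule.finrank_add_eq_of_isCompl hW
    have h2 : Module.finrank ℂ V = 6 := by simp [V]
    omega
  have hRB : ∀ r ∈ Rd, ∀ v, B r v = 0 := by
    intro r hr v
    obtain ⟨a, b, rfl⟩ := Submodule.mem_span_pair.mp hr
    simp [hP, hs]
  set BW : LinearMap.BilinMap ℂ W ℂ := B.domRestrict₁₂ W W with hBW
  have hBWs : ∀ x y, BW x y = BW y x := fun x y => hB _ _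
  set Q : QuadraticForm ℂ W := LinearMap.BilinMap.toQuadraticMap BW with hQ
  have hass : QuadraticMap.associatedHom ℂ Q = BW := QuadraticMap.associated_left_inverse ℂ hBWs
  have hdec : ∀ v : V, ∃ w ∈ W, ∃ r ∈ Rd, v = w + r := by
    intro v
    have : v ∈ Rd ⊔ W := by rw [hW.sup_eq_top]; trivial
    obtain ⟨r, hr, w, hw, h⟩ := Submodule.mem_sup.mp this
    exact ⟨w, hw, r, hr, by rw [← h, add_comm]⟩
  have hsep : (QuadraticMap.associated (R := ℂ) Q).SeparatingLeft := by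
    change (QuadraticMap.associatedHom ℂ Q).SeparatingLeft
    rw [hass]
    intro x hx
    have h1 : (x : V) ∈ Rd := by
      apply hrad
      intro v'
      obtain ⟨w, hw, r, hr, rfl⟩ := hdec v'
      rw [map_add, hB _ r, hRB r hr, add_zero]
      exact hx ⟨w, hw⟩
    have h2 := Submodule.disjoint_def.mp hW.disjoint (x : V) h1 x.2
    exact Subtype.ext h2
  have hE := QuadraticForm.equivalent_weightedSumSquares_of_isAlgClosed Q hsep
  rw [hW4] at hE
  obtain ⟨iso⟩ := hE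
  set e : Fin 4 → V := fun i => ((iso.symm (Pi.single i 1) : W) : V) with he
  have hBe : ∀ i j, B (e i) (e j) = if i = j then 1 else 0 := by
    intro i j
    have h1 : ∀ x : Fin 4 → ℂ, B (iso.symm x) (iso.symm x) = ∑ i, x i * x i := by
      intro x
      have h2 : Q (iso.symm x) = QuadraticMap.weightedSumSquares ℂ (1 : Fin 4 → ℂ) x :=
        iso.symm.map_app x
      have h3 : Q (iso.symm x) = B (iso.symm x) (iso.symm x) := rfl
      rw [← h3, h2, QuadraticMap.weightedSumSquares_apply]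
      simp
    have h4 := h1 (Pi.single i 1 + Pi.single j 1)
    have h5 := h1 (Pi.single i 1)
    have h6 := h1 (Pi.single j 1)
    have h7 : ((iso.symm (Pi.single i 1 + Pi.single j 1) : W) : V) = e i + e j := by
      rw [he]
      simp only
      rw [← Submodule.coe_add, ← map_add]
    rw [h7] at h4
    change B (e i) (e i) = _ at h5
    change B (e j) (e j) = _ at h6
    rw [map_add, map_add, LinearMap.add_apply, LinearMap.add_apply, hB (e j) (e i), h5, h6] at h4
    have h8 : ∀ x : Fin 4 → ℂ, ∑ i, x i * x i = x 0 * x 0 + x 1 * x 1 + x 2 * x 2 + x 3 * x 3 :=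
      fun x => Fin.sum_univ_four _
    rw [h8, h8, h8] at h4
    fin_cases i <;> fin_cases j <;> simp [Pi.single_apply] at h4 ⊢ <;> linear_combination h4 / 2
  have hspan : ∀ v : V, ∃ c₁ c₂ c₃ c₄ α β : ℂ,
        v = c₁ • e 0 + c₂ • e 1 + c₃ • e 2 + c₄ • e 3 + α • P + β • s := by
    intro v
    obtain ⟨w, hw, r, hr, rfl⟩ := hdec v
    obtain ⟨α, β, rfl⟩ := Submodule.mem_span_pair.mp hr
    set c : Fin 4 → ℂ := iso ⟨w, hw⟩ with hc
    refine ⟨c 0, c 1, c 2, c 3, α, β, ?_⟩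
    have h1 : (⟨w, hw⟩ : W) = iso.symm c := by rw [hc]; exact (iso.toLinearEquiv.symm_apply_apply _).symm
    have h2 : c = c 0 • (Pi.single 0 1 : Fin 4 → ℂ) + c 1 • (Pi.single 1 1 : Fin 4 → ℂ) +
        c 2 • (Pi.single 2 1 : Fin 4 → ℂ) + c 3 • (Pi.single 3 1 : Fin 4 → ℂ) := by
      ext i
      fin_cases i <;> simp [Pi.single_apply]
    have h3 : w = c 0 • e 0 + c 1 • e 1 + c 2 • e 2 + c 3 • e 3 := by
      have h4 : w = ((iso.symm c : W) : V) := by rw [← h1]
      rw [h4]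
      conv_lhs => rw [h2]
      simp only [map_add, map_smul, Submodule.coe_add, Submodule.coe_smul, he]
    rw [h3]
    abel
  have b01 : B (e 0) (e 1) = 0 := by rw [hBe]; simp
  have b02 : B (e 0) (e 2) = 0 := by rw [hBe]; simp
  have b03 : B (e 0) (e 3) = 0 := by rw [hBe]; simp
  have b12 : B (e 1) (e 2) = 0 := by rw [hBe]; simp
  have b13 : B (e 1) (e 3) = 0 := by rw [hBe]; simp
  have b23 : B (e 2) (e 3) = 0 := by rw [hBe]; simp
  have b10 : B (e 1) (e 0) = 0 := by rw [hBe]; simp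
  have b20 : B (e 2) (e 0) = 0 := by rw [hBe]; simp
  have b30 : B (e 3) (e 0) = 0 := by rw [hBe]; simp
  have b21 : B (e 2) (e 1) = 0 := by rw [hBe]; simp
  have b31 : B (e 3) (e 1) = 0 := by rw [hBe]; simp
  have b32 : B (e 3) (e 2) = 0 := by rw [hBe]; simp
  have b00 : B (e 0) (e 0) = 1 := by rw [hBe]; simp
  have b11 : B (e 1) (e 1) = 1 := by rw [hBe]; simp
  have b22 : B (e 2) (e 2) = 1 := by rw [hBe]; simp
  have b33 : B (e 3) (e 3) = 1 := by rw [hBe]; simp
  have hI : Complex.I * Complex.I = -1 := Complex.I_mul_I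
  refine ⟨(1 / 2 : ℂ) • (e 0 + Complex.I • e 1), (1 / 2 : ℂ) • (e 2 + Complex.I • e 3),
    (-(1 / 2) : ℂ) • (e 2 - Complex.I • e 3), (1 / 2 : ℂ) • (e 0 - Complex.I • e 1),
    ?_, ?_, ?_, ?_, ?_, ?_, ?_, ?_, ?_, ?_, ?_⟩
  all_goals try simp only [map_add, map_sub, map_smul, LinearMap.add_apply, LinearMap.sub_apply,
    LinearMap.smul_apply, smul_eq_mul, b01, b02, b03, b12, b13, b23, b10, b20, b30, b21, b31, b32,
    b00, b11, b22, b33]
  · linear_combination (1 / 4 : ℂ) * hI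
  · ring
  · ring
  · linear_combination (-1 / 4 : ℂ) * hI
  · linear_combination (1 / 4 : ℂ) * hI
  · linear_combination (1 / 4 : ℂ) * hI
  · ring
  · linear_combination (1 / 4 : ℂ) * hI
  · ring
  · linear_combination (1 / 4 : ℂ) * hI
  · intro v
    obtain ⟨c₁, c₂, c₃, c₄, α, β, hv⟩ := hspan v
    refine ⟨c₁ - Complex.I * c₂, c₃ - Complex.I * c₄, -(c₃ + Complex.I * c₄),
      c₁ + Complex.I * c₂, α, β, ?_⟩
    rw [hv]
    match_scalars
    all_goals first | ring1 | linear_combination c₂ * hI | linear_combination c₄ * hI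

/-- a cubic polynomial function which vanishes identically has zero coefficients -/
theorem cubic_zero (a b c d : ℂ) (h : ∀ t : ℂ, a + t * b + t ^ 2 * c + t ^ 3 * d = 0) :
    a = 0 ∧ b = 0 ∧ c = 0 ∧ d = 0 := by
  have h0 := h 0
  have h1 := h 1
  have h2 := h (-1)
  have h3 := h 2
  have ha : a = 0 := by linear_combination h0
  have hc : c = 0 := by linear_combination (1 / 2 : ℂ) * (h1 + h2) - h0
  have hd : d = 0 := by
    linear_combination (1 / 6 : ℂ) * (h3 - h0) - (1 / 3 : ℂ) * (h1 - h0) -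
      (2 / 3 : ℂ) * ha + (2 / 3 : ℂ) * ha - (1 / 3 : ℂ) * hc
  have hb : b = 0 := by linear_combination h1 - ha - hc - hd
  exact ⟨ha, hb, hc, hd⟩

open MvPolynomial in
/-- the product argument -/
theorem prod_arg (T : Tri) (l : V →ₗ[ℂ] ℂ) (f₁ f₂ f₃ f₄ : V)
    (h : ∀ a₁ a₂ b₁ b₂ : ℂ,
      T ((a₁ * b₁) • f₁ + (a₁ * b₂) • f₂ + (a₂ * b₁) • f₃ + (a₂ * b₂) • f₄)
        ((a₁ * b₁) • f₁ + (a₁ * b₂) • f₂ + (a₂ * b₁) • f₃ + (a₂ * b₂) • f₄)
        ((a₁ * b₁) • f₁ + (a₁ * b₂) • f₂ + (a₂ * b₁) • f₃ + (a₂ * b₂) • f₄) *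
      l ((a₁ * b₁) • f₁ + (a₁ * b₂) • f₂ + (a₂ * b₁) • f₃ + (a₂ * b₂) • f₄) = 0) :
    (l f₁ = 0 ∧ l f₂ = 0 ∧ l f₃ = 0 ∧ l f₄ = 0) ∨
    ∀ a₁ a₂ b₁ b₂ : ℂ,
      T ((a₁ * b₁) • f₁ + (a₁ * b₂) • f₂ + (a₂ * b₁) • f₃ + (a₂ * b₂) • f₄)
        ((a₁ * b₁) • f₁ + (a₁ * b₂) • f₂ + (a₂ * b₁) • f₃ + (a₂ * b₂) • f₄)
        ((a₁ * b₁) • f₁ + (a₁ * b₂) • f₂ + (a₂ * b₁) • f₃ + (a₂ * b₂) • f₄) = 0 := by
  let f : Fin 4 → V := ![f₁, f₂, f₃, f₄]
  let m : Fin 4 → MvPolynomial (Fin 4) ℂ := ![X 0 * X 2, X 0 * X 3, X 1 * X 2, X 1 * X 3]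
  let w : (Fin 4 → ℂ) → V := fun x => ∑ i, (eval x (m i)) • f i
  let Cp : MvPolynomial (Fin 4) ℂ := ∑ i, ∑ j, ∑ k, C (T (f i) (f j) (f k)) * m i * m j * m k
  let Lp : MvPolynomial (Fin 4) ℂ := ∑ i, C (l (f i)) * m i
  have hC : ∀ x, eval x Cp = T (w x) (w x) (w x) := by
    intro x
    have e1 : ∀ y z : V, T (w x) y z = ∑ i, eval x (m i) * T (f i) y z := by
      intro y z
      simp only [w, map_sum, map_smul, LinearMap.sum_apply, LinearMap.smul_apply, smul_eq_mul]
    have e2 : ∀ y z : V, T y (w x) z = ∑ i, eval x (m i) * T y (f i) z := by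
      intro y z
      simp only [w, map_sum, map_smul, LinearMap.sum_apply, LinearMap.smul_apply, smul_eq_mul]
    have e3 : ∀ y z : V, T y z (w x) = ∑ i, eval x (m i) * T y z (f i) := by
      intro y z
      simp only [w, map_sum, map_smul, smul_eq_mul]
    rw [e1]
    simp only [Cp, map_sum, map_mul, eval_C]
    refine Finset.sum_congr rfl fun i _ => ?_
    rw [e2, Finset.mul_sum]
    refine Finset.sum_congr rfl fun j _ => ?_
    rw [e3, Finset.mul_sum, Finset.mul_sum]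
    refine Finset.sum_congr rfl fun k _ => ?_
    ring
  have hL : ∀ x, eval x Lp = l (w x) := by
    intro x
    simp only [Lp, w, map_sum, map_mul, eval_C, map_smul, smul_eq_mul]
    exact Finset.sum_congr rfl fun i _ => mul_comm _ _
  have hw : ∀ x, w x = (x 0 * x 2) • f₁ + (x 0 * x 3) • f₂ + (x 1 * x 2) • f₃ +
      (x 1 * x 3) • f₄ := by
    intro x
    simp only [w, m, f, Fin.sum_univ_four]
    simp
  have hCL : Cp * Lp = 0 := by
    apply MvPolynomial.funext
    intro x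
    rw [map_mul, hC, hL, map_zero, hw]
    exact h _ _ _ _
  rcases mul_eq_zero.mp hCL with h1 | h1
  · right
    intro a₁ a₂ b₁ b₂
    have h2 := hC ![a₁, a₂, b₁, b₂]
    rw [h1, map_zero, hw] at h2
    exact h2.symm
  · left
    have h2 : ∀ a₁ a₂ b₁ b₂ : ℂ, l ((a₁ * b₁) • f₁ + (a₁ * b₂) • f₂ + (a₂ * b₁) • f₃ +
        (a₂ * b₂) • f₄) = 0 := by
      intro a₁ a₂ b₁ b₂
      have h2 := hL ![a₁, a₂, b₁, b₂]
      rw [h1, map_zero, hw] at h2
      exact h2.symm
    refine ⟨?_, ?_, ?_, ?_⟩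
    · simpa using h2 1 0 1 0
    · simpa using h2 1 0 0 1
    · simpa using h2 0 1 1 0
    · simpa using h2 0 1 0 1

/-- expansion of a cube -/
theorem expand (T : Tri) (hT : Sym T) (u v : V) (t : ℂ) :
    T (u + t • v) (u + t • v) (u + t • v) =
      T u u u + t * (3 * T u u v) + t ^ 2 * (3 * T u v v) + t ^ 3 * T v v v := by
  have h1 : T u v u = T u u v := hT.s23 _ _ _
  have h2 : T v u u = T u u v := by rw [hT.s12 v u u, hT.s23]
  have h3 : T v u v = T u v v := hT.s12 _ _ _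
  have h4 : T v v u = T u v v := by rw [hT.s23, hT.s12]
  simp only [map_add, map_smul, LinearMap.add_apply, LinearMap.smul_apply, smul_eq_mul, h1, h2,
    h3, h4]
  ring

/-- expansion of a mixed term -/
theorem expand2 (T : Tri) (hT : Sym T) (u v u' v' : V) (t : ℂ) :
    T (u + t • v) (u + t • v) (u' + t • v') =
      T u u u' + t * (T u u v' + 2 * T u v u') + t ^ 2 * (2 * T u v v' + T v v u') +
        t ^ 3 * T v v v' := by
  have h1 : T v u u' = T u v u' := hT.s12 _ _ _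
  have h2 : T v u v' = T u v v' := hT.s12 _ _ _
  simp only [map_add, map_smul, LinearMap.add_apply, LinearMap.smul_apply, smul_eq_mul, h1, h2]
  ring

theorem stmtNZ : G_NZ := by
  intro T P s s' hT hP hN hs hs'
  by_contra hcon
  push Not at hcon
  obtain ⟨hli, hs0⟩ := hs
  obtain ⟨hli', hs0'⟩ := hs'
  have hrad := hN s ⟨hli, hs0⟩
  have hTP2 : ∀ x y, T x P y = 0 := fun x y => by rw [hT.s12, hP]
  have hTP3 : ∀ x y, T x y P = 0 := fun x y => by rw [hT.s23, hTP2]
  obtain ⟨f₁, f₂, f₃, f₄, b11, b12, b13, b14, b22, b23, b24, b33, b34, b44, hspan⟩ :=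
    frame (T s) (fun x y => hT.s23 s x y) P s hli (fun v => hTP2 s v) hs0 hrad
  -- the case distinction
  by_cases hmem : s' ∈ Submodule.span ℂ {P, s}
  · obtain ⟨β, α, rfl⟩ := Submodule.mem_span_pair.mp hmem
    have hα : α ≠ 0 := by
      rintro rfl
      rw [zero_smul, add_zero] at hli'
      have := LinearIndependent.pair_iff.mp hli' β (-1) (by module)
      simpa using this.2
    have h1 := hcon (f₁ + f₄)
    have h2 : T s (f₁ + f₄) (f₁ + f₄) = 1 := by
      have b41 : T s f₄ f₁ = 1 / 2 := by rw [hT.s23, b14]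
      simp only [map_add, LinearMap.add_apply, b11, b14, b41, b44]
      norm_num
    have h5 : ∀ x y, T (β • P + α • s) x y = α * T s x y := by
      intro x y
      rw [LinearMap.map_add T, LinearMap.map_smul T, LinearMap.map_smul T, LinearMap.add_apply,
        LinearMap.smul_apply, LinearMap.smul_apply, LinearMap.add_apply, LinearMap.smul_apply,
        LinearMap.smul_apply, hP]
      simp
    have h3 : T (β • P + α • s) (f₁ + f₄) (f₁ + f₄) = α := by rw [h5, h2, mul_one]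
    have h4 : T (β • P + α • s) s (f₁ + f₄) = 0 := by rw [h5, hs0, mul_zero]
    rw [h2, h3, h4] at h1
    apply hα
    linear_combination (1 / 3 : ℂ) * h1
  · -- the linear form `l`
    set l : V →ₗ[ℂ] ℂ := T s' s with hl
    have hlP : l P = 0 := hTP3 _ _
    have hls : l s = 0 := by rw [hl, hT.s12, hT.s23, hs0]
    have hq : ∀ a₁ a₂ b₁ b₂ : ℂ,
        T s ((a₁ * b₁) • f₁ + (a₁ * b₂) • f₂ + (a₂ * b₁) • f₃ + (a₂ * b₂) • f₄)
          ((a₁ * b₁) • f₁ + (a₁ * b₂) • f₂ + (a₂ * b₁) • f₃ + (a₂ * b₂) • f₄) = 0 := by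
      intro a₁ a₂ b₁ b₂
      have b21 : T s f₂ f₁ = 0 := by rw [hT.s23, b12]
      have b31 : T s f₃ f₁ = 0 := by rw [hT.s23, b13]
      have b41 : T s f₄ f₁ = 1 / 2 := by rw [hT.s23, b14]
      have b32 : T s f₃ f₂ = -(1 / 2) := by rw [hT.s23, b23]
      have b42 : T s f₄ f₂ = 0 := by rw [hT.s23, b24]
      have b43 : T s f₄ f₃ = 0 := by rw [hT.s23, b34]
      simp only [map_add, map_smul, LinearMap.add_apply, LinearMap.smul_apply, smul_eq_mul,
        b11, b12, b13, b14, b22, b23, b24, b33, b34, b44, b21, b31, b41, b32, b42, b43]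
      ring
    have hprod := prod_arg T l f₁ f₂ f₃ f₄ (by
      intro a₁ a₂ b₁ b₂
      have h1 := hcon ((a₁ * b₁) • f₁ + (a₁ * b₂) • f₂ + (a₂ * b₁) • f₃ + (a₂ * b₂) • f₄)
      rw [hq] at h1
      linear_combination (-1 / 2 : ℂ) * h1)
    rcases hprod with ⟨l1, l2, l3, l4⟩ | hc
    · apply hmem
      apply hrad
      intro v
      obtain ⟨c₁, c₂, c₃, c₄, α, β, rfl⟩ := hspan v
      rw [hT.s12]
      change l _ = 0
      simp only [map_add, map_smul, l1, l2, l3, l4, hlP, hls, smul_zero, add_zero]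
    · -- consequences
      have c1 : ∀ t : ℂ, T (f₁ + t • f₂) (f₁ + t • f₂) (f₁ + t • f₂) = 0 := by
        intro t
        simpa using hc 1 0 1 t
      have c2 : ∀ t r : ℂ, T ((f₁ + t • f₂) + r • (f₃ + t • f₄))
          ((f₁ + t • f₂) + r • (f₃ + t • f₄)) ((f₁ + t • f₂) + r • (f₃ + t • f₄)) = 0 := by
        intro t r
        have h1 := hc 1 r 1 t
        have h2 : (1 * 1 : ℂ) • f₁ + (1 * t) • f₂ + (r * 1) • f₃ + (r * t) • f₄ =
            (f₁ + t • f₂) + r • (f₃ + t • f₄) := by module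
        rw [h2] at h1
        exact h1
      have c3 : ∀ t : ℂ, T (f₁ + t • f₂) (f₁ + t • f₂) (f₃ + t • f₄) = 0 := by
        intro t
        have h1 := cubic_zero _ _ _ _ (fun r => (expand T hT (f₁ + t • f₂) (f₃ + t • f₄) r).symm.trans
          (c2 t r))
        linear_combination (1 / 3 : ℂ) * h1.2.1
      have d1 := cubic_zero _ _ _ _ (fun t => (expand T hT f₁ f₂ t).symm.trans (c1 t))
      have d2 := cubic_zero _ _ _ _ (fun t => (expand2 T hT f₁ f₂ f₃ f₄ t).symm.trans (c3 t))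
      obtain ⟨t111, t112, t122, t222⟩ := d1
      obtain ⟨t113, t114, t124, t224⟩ := d2
      have t112' : T f₁ f₁ f₂ = 0 := by linear_combination (1 / 3 : ℂ) * t112
      have t122' : T f₁ f₂ f₂ = 0 := by linear_combination (1 / 3 : ℂ) * t122
      -- the new singular point
      set t₁ : ℂ := - T f₁ f₁ f₄ with ht₁
      set t₂ : ℂ := T f₂ f₂ f₃ with ht₂
      have hs1 : SingPt T P (f₁ + t₁ • s) := by
        constructor
        · rw [LinearIndependent.pair_iff]
          intro a b hab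
          have h1 : T s f₄ (a • P + b • (f₁ + t₁ • s)) = 0 := by rw [hab, map_zero]
          have h2 : T s f₄ s = 0 := by rw [hT.s23, hs0]
          have h3 : T s f₄ f₁ = 1 / 2 := by rw [hT.s23, b14]
          rw [map_add, map_smul, map_smul, map_add, map_smul, hTP3, h2, h3] at h1
          have hb : b = 0 := by
            simp only [smul_eq_mul] at h1
            linear_combination 2 * h1
          refine ⟨?_, hb⟩
          rw [hb, zero_smul, add_zero] at hab
          have hP0 : P ≠ 0 := by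
            have := hli.ne_zero 0
            simpa using this
          exact (smul_eq_zero.mp hab).resolve_right hP0
        · intro v
          obtain ⟨c₁, c₂, c₃, c₄, α, β, rfl⟩ := hspan v
          have g1 : ∀ v, T (f₁ + t₁ • s) (f₁ + t₁ • s) v = T f₁ f₁ v + 2 * t₁ * T s f₁ v := by
            intro v
            have g2 : T f₁ s v = T s f₁ v := hT.s12 _ _ _
            simp only [map_add, map_smul, LinearMap.add_apply, LinearMap.smul_apply, smul_eq_mul,
              g2, hs0]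
            ring
          have g3 : T f₁ f₁ s = 0 := by rw [hT.s23, hT.s12, b11]
          have g4 : T s f₁ s = 0 := by rw [hT.s23, hs0]
          rw [g1]
          simp only [map_add, map_smul, smul_eq_mul, t111, t112', t113, g3, g4, hTP3, b11, b12,
            b13, b14]
          rw [ht₁]
          ring
      have hs2 := hN _ hs1 (f₂ + t₂ • s) (by
        intro v
        obtain ⟨c₁, c₂, c₃, c₄, α, β, rfl⟩ := hspan v
        have g1 : ∀ v, T (f₁ + t₁ • s) (f₂ + t₂ • s) v =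
            T f₁ f₂ v + t₂ * T s f₁ v + t₁ * T s f₂ v := by
          intro v
          have g2 : T f₁ s v = T s f₁ v := hT.s12 _ _ _
          simp only [map_add, map_smul, LinearMap.add_apply, LinearMap.smul_apply, smul_eq_mul,
            g2, hs0]
          ring
        have g3 : T f₁ f₂ s = 0 := by rw [hT.s23, hT.s12, b12]
        have g4 : T s f₁ s = 0 := by rw [hT.s23, hs0]
        have g5 : T s f₂ s = 0 := by rw [hT.s23, hs0]
        have g6 : T f₁ f₂ f₁ = 0 := by rw [hT.s23, t112']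
        have g7 : T s f₂ f₁ = 0 := by rw [hT.s23, b12]
        rw [g1]
        simp only [map_add, map_smul, smul_eq_mul, g3, g4, g5, g6, g7, hTP3, b11, b12, b13, b14,
          b22, b23, b24, t122']
        rw [ht₁, ht₂]
        linear_combination (c₃ / 2) * t114 + (c₄ / 2) * t124)
      obtain ⟨x, y, hxy⟩ := Submodule.mem_span_pair.mp hs2
      have h1 : T s f₃ (x • P + y • (f₁ + t₁ • s)) = T s f₃ (f₂ + t₂ • s) := by rw [hxy]
      have h2 : T s f₃ s = 0 := by rw [hT.s23, hs0]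
      have h3 : T s f₃ f₁ = 0 := by rw [hT.s23, b13]
      have h4 : T s f₃ f₂ = -(1 / 2) := by rw [hT.s23, b23]
      simp only [map_add, map_smul, hTP3, h2, h3, h4, smul_eq_mul] at h1
      norm_num at h1

end Pool.Agent.Helper18.CF
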