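import Pool.Agent.Helper45.CF.GoalsA
import Pool.Agent.Helper42.Uct.QT
import Pool.Agent.Helper39.Uct.Main

/-! Project CF (MP_d97caa_an), packet QTK. -/

set_option autoImplicit false

namespace Pool.Agent.Helper18.CF

open Pool.Agent.Helper45.CF

/-- A non-unital C*-algebra with a unit is a C*-algebra, with the same operations. -/
@[reducible] noncomputable def unitalize (Q : Type) [inst : NonUnitalCStarAlgebra Q] (u : Q)
    (hl : ∀ q, u * q = q) (hr : ∀ q, q * u = q) : CStarAlgebra Q :=
  letI nr : NormedRing Q :=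
    { inst.toNonUnitalNormedRing with
      one := u
      one_mul := hl
      mul_one := hr }
  letI al : Algebra ℂ Q := Algebra.ofModule
    (fun r x y => smul_mul_assoc r x y) (fun r x y => mul_smul_comm r x y)
  letI na : NormedAlgebra ℂ Q :=
    { al with norm_smul_le := fun r x => norm_smul_le r x }
  { nr, na, inst with }

theorem t : S_QTK := by
  have hRC : Pool.Agent.Helper39.Uct.S_RC := Pool.Agent.Helper39.Uct.t_RC
  have hQT : Pool.Agent.Helper39.Uct.S_QT := Pool.Agent.Helper39.Uct.t_QT
  intro K M _ instM k hk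
  have hmem : ∀ x, x ∈ LinearMap.range (k : K →ₗ[ℂ] M) ↔ x ∈ Set.range k := fun x => Iff.rfl
  obtain ⟨Q, instQ, π, hsurj, hker⟩ := hQT M (LinearMap.range (k : K →ₗ[ℂ] M)) (hRC K M k)
    (by
      rintro _ ⟨x, rfl⟩ b
      exact hk b x)
    (by
      rintro _ ⟨x, rfl⟩
      exact ⟨star x, map_star k x⟩)
  have hl : ∀ q : Q, π 1 * q = q := by
    intro q
    obtain ⟨m, rfl⟩ := hsurj q
    rw [← map_mul, one_mul]
  have hr : ∀ q : Q, q * π 1 = q := by
    intro q
    obtain ⟨m, rfl⟩ := hsurj q
    rw [← map_mul, mul_one]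
  letI := unitalize Q (π 1) hl hr
  refine ⟨Q, unitalize Q (π 1) hl hr,
    { toFun := π
      map_one' := rfl
      map_mul' := fun a b => map_mul π a b
      map_zero' := map_zero π
      map_add' := fun a b => map_add π a b
      commutes' := fun c => ?_
      map_star' := fun a => map_star π a }, hsurj, fun m => hker m⟩
  rw [Algebra.algebraMap_eq_smul_one]
  exact map_smul π c 1

end Pool.Agent.Helper18.CF
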